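import Pool.Agent.V11109.Cvx.Final

open MeasureTheory ProbabilityTheory Set Filter Topology Pool.Agent.V11109.Cvx

namespace Pool.Agent.Results.MP_4978a0_pr.QuantileBounds

/-- Sharp bounds of `F⁻¹(p) / m_F` over the classes `C⁺` and `C⁻` of the reference law `ν`
(distribution function `W`, support interval `[a, d)`), with `w = W⁻¹(p)`. -/
theorem result (ν : Measure ℝ) [IsProbabilityMeasure ν] (a : ℝ) (d : EReal) (h : RefLaw ν a d)
    (p : ℝ) (hp0 : 0 < p) (hp1 : p < 1) (w : ℝ) (hw : w = quantile ν p) :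
    (a < w ∧ (w : EReal) < d ∧ cdf ν w = p) ∧
    -- Q1
    (Integrable (fun x : ℝ => x ^ 2) ν →
      IsLeast (ratioSet (Cplus ν a) p) 0 ∧
      (∃ c, a ≤ c ∧ c < w ∧ ((c = a ∧ 0 ≤ Hf ν w c) ∨ Hf ν w c = 0)) ∧
      ∀ c, a ≤ c → c < w → ((c = a ∧ 0 ≤ Hf ν w c) ∨ Hf ν w c = 0) →
        IsGreatest (ratioSet (Cplus ν a) p) ((w - c) / √(∫ x, max (x - c) 0 ^ 2 ∂ν)) ∧
        IsGreatest {t | ∃ b, a ≤ b ∧ b < w ∧ t = (w - b) / √(∫ x, max (x - b) 0 ^ 2 ∂ν)}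
          ((w - c) / √(∫ x, max (x - c) 0 ^ 2 ∂ν))) ∧
    (¬ Integrable (fun x : ℝ => x ^ 2) ν → ∀ μ, ¬ Cplus ν a μ) ∧
    -- Q2
    IsGreatest (ratioSet (Cminus ν a) p) (1 / √(∫ x, min ((x - a) / (w - a)) 1 ^ 2 ∂ν)) ∧
    (Integrable (fun x : ℝ => x ^ 2) ν →
      IsGLB (ratioSet (Cminus ν a) p) (min 1 ((w - a) / √(∫ x, (x - a) ^ 2 ∂ν)))) ∧
    (¬ Integrable (fun x : ℝ => x ^ 2) ν → IsGLB (ratioSet (Cminus ν a) p) 0) ∧
    -- Q2, with an atom at the left endpoint allowed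
    IsLUB (ratioSet (CminusLit ν a) p) (1 / √(1 - p)) ∧
    IsLeast (ratioSet (CminusLit ν a) p) 0 := by
  obtain ⟨haw, hwd, hwp⟩ := quantile_self h hp0 hp1
  rw [← hw] at haw hwd hwp
  rw [← hwp]
  refine ⟨⟨haw, hwd, rfl⟩, ?_, ?_, minus_greatest h haw hwd, fun hint => minus_glb h hint haw hwd,
    fun hint => minus_glb' h hint haw hwd, lit_lub h haw hwd, lit_least h haw hwd⟩
  · intro hint
    refine ⟨plus_least h hint haw hwd, exists_stat h hint haw hwd, fun c hac hcw hH => ?_⟩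
    have h1 := plus_greatest h hint haw hwd hac hcw hH
    refine ⟨h1, ⟨c, hac, hcw, rfl⟩, ?_⟩
    rintro _ ⟨b, hab, hbw, rfl⟩
    exact h1.2 (plus_mem h hint haw hwd hab hbw.le)
  · intro hint μ hμ
    exact hint (integrable_of_plus h hμ.1 hμ.2)

end Pool.Agent.Results.MP_4978a0_pr.QuantileBounds
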